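import Pool.Agent.MP_c1891a_nt.H43.Spec

/-
A lower bound for a binomial at an isolated common zero of two monomial pull-backs.
-/

namespace Pool.Agent.MP_c1891a_nt.H43

open Finset Polynomial Module

theorem mono_map {F G : Type} [Field F] [Field G] (σ : F →+* G) (P : LP) (η₁ η₂ : F)
    (v₁ v₂ w₁ w₂ : ℤ) :
    (F2 P η₁ η₂ v₁ v₂ w₁ w₂).map (mapRingHom σ) = F2 P (σ η₁) (σ η₂) v₁ v₂ w₁ w₂ := by
  unfold F2
  rw [Polynomial.map_sum]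
  refine sum_congr rfl fun μ _ => ?_
  simp [Polynomial.map_mul, Polynomial.map_pow, map_zpow₀]

theorem mono_swap {F : Type} [Field F] (P : LP) (η₁ η₂ : F) (v₁ v₂ w₁ w₂ : ℤ) :
    Bivariate.swap (F2 P η₁ η₂ v₁ v₂ w₁ w₂) = F2 P η₁ η₂ w₁ w₂ v₁ v₂ := by
  unfold F2
  rw [map_sum]
  refine sum_congr rfl fun μ _ => ?_
  simp only [C_mul_X_pow_eq_monomial]
  exact Bivariate.swap_monomial_monomial _ _ _

theorem mono_swap_ne {F : Type} [Field F] (P : LP) (η₁ η₂ : F) (v₁ v₂ w₁ w₂ : ℤ)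
    (h : F2 P η₁ η₂ v₁ v₂ w₁ w₂ ≠ 0) : F2 P η₁ η₂ w₁ w₂ v₁ v₂ ≠ 0 := by
  rw [← mono_swap]
  exact (map_ne_zero_iff _ (Bivariate.swap (R := F)).injective).2 h

theorem mono_abs (P : LP) (v₁ v₂ : ℤ) {μ : ℤ × ℤ} (hμ : μ ∈ P.coeff.support) :
    |v₁ * μ.1 + v₂ * μ.2| ≤ (A1 P v₁ v₂ : ℤ) := by
  have h : max μ.1.natAbs μ.2.natAbs ≤ Rn P :=
    Finset.le_sup (f := fun μ : ℤ × ℤ => max μ.1.natAbs μ.2.natAbs) hμ
  have h1 : |μ.1| ≤ (Rn P : ℤ) := by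
    rw [← Int.natCast_natAbs]; exact_mod_cast (le_max_left _ _).trans h
  have h2 : |μ.2| ≤ (Rn P : ℤ) := by
    rw [← Int.natCast_natAbs]; exact_mod_cast (le_max_right _ _).trans h
  unfold A1
  push_cast
  calc |v₁ * μ.1 + v₂ * μ.2| ≤ |v₁ * μ.1| + |v₂ * μ.2| := abs_add_le _ _
    _ = |v₁| * |μ.1| + |v₂| * |μ.2| := by rw [abs_mul, abs_mul]
    _ ≤ |v₁| * (Rn P : ℤ) + |v₂| * (Rn P : ℤ) := by gcongr
    _ = _ := by ring

theorem mono_ex (P : LP) (v₁ v₂ : ℤ) {μ : ℤ × ℤ} (hμ : μ ∈ P.coeff.support) :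
    (ex P v₁ v₂ μ : ℤ) = (A1 P v₁ v₂ : ℤ) + v₁ * μ.1 + v₂ * μ.2 := by
  have := abs_le.1 (mono_abs P v₁ v₂ hμ)
  unfold ex
  rw [Int.toNat_of_nonneg (by linarith)]

theorem mono_ex_le (P : LP) (v₁ v₂ : ℤ) (V R : ℕ) (h1 : |v₁| ≤ V) (h2 : |v₂| ≤ V)
    (hR : Rn P ≤ R) {μ : ℤ × ℤ} (hμ : μ ∈ P.coeff.support) : ex P v₁ v₂ μ ≤ 4 * R * V := by
  have h := abs_le.1 (mono_abs P v₁ v₂ hμ)
  have hA : (A1 P v₁ v₂ : ℤ) ≤ 2 * R * V := by
    unfold A1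
    push_cast
    have : (Rn P : ℤ) ≤ R := by exact_mod_cast hR
    calc (Rn P : ℤ) * (|v₁| + |v₂|) ≤ R * (V + V) := by gcongr
      _ = _ := by ring
  have := mono_ex P v₁ v₂ hμ
  zify
  linarith

theorem mono_eval {F : Type} [Field F] (P : LP) (η₁ η₂ : F) (v₁ v₂ w₁ w₂ : ℤ) (p q : F)
    (hp : p ≠ 0) (hq : q ≠ 0) :
    (F2 P η₁ η₂ v₁ v₂ w₁ w₂).evalEval p q = p ^ A1 P v₁ v₂ * q ^ A1 P w₁ w₂ *
      ev P (η₁ * p ^ v₁ * q ^ w₁) (η₂ * p ^ v₂ * q ^ w₂) := by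
  unfold F2 ev
  rw [evalEval_finsetSum, mul_sum]
  refine sum_congr rfl fun μ hμ => ?_
  have e1 : p ^ ex P v₁ v₂ μ = p ^ A1 P v₁ v₂ * (p ^ v₁) ^ μ.1 * (p ^ v₂) ^ μ.2 := by
    rw [← zpow_natCast, mono_ex P v₁ v₂ hμ, zpow_add₀ hp, zpow_add₀ hp, zpow_mul, zpow_mul,
      zpow_natCast]
  have e2 : q ^ ex P w₁ w₂ μ = q ^ A1 P w₁ w₂ * (q ^ w₁) ^ μ.1 * (q ^ w₂) ^ μ.2 := by
    rw [← zpow_natCast, mono_ex P w₁ w₂ hμ, zpow_add₀ hq, zpow_add₀ hq, zpow_mul, zpow_mul,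
      zpow_natCast]
  simp only [evalEval_mul, evalEval_C, evalEval_pow, evalEval_X, eval_mul, eval_C, eval_pow,
    eval_X, e1, e2, mul_zpow]
  ring

theorem mono_coeff {F : Type} [Field F] (P : LP) (η₁ η₂ : F) (v₁ v₂ w₁ w₂ : ℤ) (j i : ℕ) :
    ((F2 P η₁ η₂ v₁ v₂ w₁ w₂).coeff j).coeff i = ∑ μ ∈ P.coeff.support,
      if j = ex P w₁ w₂ μ then (if i = ex P v₁ v₂ μ then
        (P.coeff μ : F) * η₁ ^ μ.1 * η₂ ^ μ.2 else 0) else 0 := by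
  unfold F2
  rw [finsetSum_coeff, finsetSum_coeff]
  refine sum_congr rfl fun μ _ => ?_
  rw [coeff_C_mul_X_pow]
  split_ifs with h1 h2
  · rw [coeff_C_mul_X_pow, if_pos h2]
  · rw [coeff_C_mul_X_pow, if_neg h2]
  · simp

theorem mono_int {F : Type} [Field F] (P : LP) (η₁ η₂ : F) (v₁ v₂ w₁ w₂ : ℤ)
    (h1 : ∀ n : ℤ, IsIntegral ℤ (η₁ ^ n)) (h2 : ∀ n : ℤ, IsIntegral ℤ (η₂ ^ n)) (j : ℕ) :
    IntC ((F2 P η₁ η₂ v₁ v₂ w₁ w₂).coeff j) := by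
  intro i
  rw [mono_coeff]
  refine IsIntegral.sum _ fun μ _ => ?_
  split_ifs
  · exact ((isIntegral_algebraMap (x := P.coeff μ)).mul (h1 _)).mul (h2 _)
  · exact isIntegral_zero
  · exact isIntegral_zero

theorem mono_deg1 {F : Type} [Field F] (P : LP) (η₁ η₂ : F) (v₁ v₂ w₁ w₂ : ℤ) (a : ℕ)
    (ha : ∀ μ ∈ P.coeff.support, ex P v₁ v₂ μ ≤ a) (j : ℕ) :
    ((F2 P η₁ η₂ v₁ v₂ w₁ w₂).coeff j).natDegree ≤ a := by
  rw [natDegree_le_iff_coeff_eq_zero]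
  intro i hi
  rw [mono_coeff]
  refine sum_eq_zero fun μ hμ => ?_
  have := ha μ hμ
  rw [if_neg (by omega : ¬ i = ex P v₁ v₂ μ), ite_self]

theorem mono_deg2 {F : Type} [Field F] (P : LP) (η₁ η₂ : F) (v₁ v₂ w₁ w₂ : ℤ) (b : ℕ)
    (hb : ∀ μ ∈ P.coeff.support, ex P w₁ w₂ μ ≤ b) :
    (F2 P η₁ η₂ v₁ v₂ w₁ w₂).natDegree ≤ b := by
  rw [natDegree_le_iff_coeff_eq_zero]
  intro j hj
  ext i
  rw [mono_coeff]
  refine sum_eq_zero fun μ hμ => ?_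
  have := hb μ hμ
  rw [if_neg (by omega : ¬ j = ex P w₁ w₂ μ)]

theorem mono_l2 (P : LP) (η₁ η₂ : ℂ) (v₁ v₂ w₁ w₂ : ℤ) (h1 : ‖η₁‖ = 1) (h2 : ‖η₂‖ = 1) :
    l2 (F2 P η₁ η₂ v₁ v₂ w₁ w₂) ≤ Hn P := by
  set f := F2 P η₁ η₂ v₁ v₂ w₁ w₂ with hf
  have key : ∀ j i, ‖(f.coeff j).coeff i‖ ≤ ∑ μ ∈ P.coeff.support,
      if j = ex P w₁ w₂ μ then (if i = ex P v₁ v₂ μ then
        (((P.coeff μ).natAbs : ℕ) : ℝ) else 0) else 0 := by
    intro j i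
    rw [hf, mono_coeff]
    refine (norm_sum_le _ _).trans (sum_le_sum fun μ _ => ?_)
    split_ifs
    · rw [norm_mul, norm_mul, norm_zpow, norm_zpow, h1, h2, one_zpow, one_zpow, mul_one, mul_one,
        Complex.norm_intCast, Nat.cast_natAbs, Int.cast_abs]
    · simp
    · simp
  unfold l2 l1 Hn
  push_cast
  calc ∑ j ∈ f.support, ∑ i ∈ (f.coeff j).support, ‖(f.coeff j).coeff i‖
      ≤ ∑ j ∈ f.support, ∑ i ∈ (f.coeff j).support, ∑ μ ∈ P.coeff.support,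
        if j = ex P w₁ w₂ μ then (if i = ex P v₁ v₂ μ then
          (((P.coeff μ).natAbs : ℕ) : ℝ) else 0) else 0 :=
        sum_le_sum fun j _ => sum_le_sum fun i _ => key j i
    _ ≤ ∑ j ∈ f.support, ∑ μ ∈ P.coeff.support,
        if j = ex P w₁ w₂ μ then (((P.coeff μ).natAbs : ℕ) : ℝ) else 0 := by
        refine sum_le_sum fun j _ => ?_
        rw [sum_comm]
        refine sum_le_sum fun μ _ => ?_
        split_ifs
        · rw [sum_ite_eq']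
          split_ifs
          · exact le_rfl
          · positivity
        · simp
    _ ≤ ∑ μ ∈ P.coeff.support, (((P.coeff μ).natAbs : ℕ) : ℝ) := by
        rw [sum_comm]
        refine sum_le_sum fun μ _ => ?_
        rw [sum_ite_eq']
        split_ifs
        · exact le_rfl
        · positivity

theorem mono_root {F : Type} [Field F] {x : F} {g : ℕ} (hg : 0 < g) (hx : x ^ g = 1) (n : ℤ) :
    IsIntegral ℤ (x ^ n) := by
  refine IsIntegral.of_pow hg ?_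
  rw [← zpow_natCast, ← zpow_mul, mul_comm, zpow_mul, zpow_natCast, hx, one_zpow]
  exact isIntegral_one

/-- the eliminant of the two pull-backs. -/
theorem mono_elim (h2 : SRes) (P Q : LP) (R H g : ℕ) (hP : Rn P ≤ R) (hQ : Rn Q ≤ R)
    (hH : 1 ≤ H) (hHP : Hn P ≤ H) (hHQ : Hn Q ≤ H) (hg : 0 < g)
    (L : Type) [Field L] [NumberField L] (ι : L →+* ℂ) (ω' : L) (hω : ω' ^ g = 1)
    (hL : finrank ℚ L ≤ g) (k v w : Fin 4 → ℤ) (V W : ℕ) (hv : ∀ i, |v i| ≤ V)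
    (hw : ∀ i, |w i| ≤ W) (hfin : (ZS P Q (fun i => ι ω' ^ k i) v w).Finite)
    (n1 : F2 P (ι ω' ^ k 0) (ι ω' ^ k 1) (v 0) (v 1) (w 0) (w 1) ≠ 0)
    (n2 : F2 Q (ι ω' ^ k 2) (ι ω' ^ k 3) (v 2) (v 3) (w 2) (w 3) ≠ 0)
    (K : Type) [Field K] [NumberField K] [Algebra L K] (ι' : K →+* ℂ) (p q : K)
    (hι : ∀ a, ι' (algebraMap L K a) = ι a)
    (hz : (ι' p, ι' q) ∈ ZS P Q (fun i => ι ω' ^ k i) v w)
    (hsep : ∀ σ τ : K →+* ℂ, (∀ a, σ (algebraMap L K a) = τ (algebraMap L K a)) → σ p = τ p →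
      σ q = τ q → σ = τ) :
    ∃ T : ℤ[X], T ≠ 0 ∧ T.natDegree ≤ g * (2 * (4 * R * V) * (4 * R * W)) ∧
      (cx T).mahlerMeasure ≤ (H : ℝ) ^ (g * (2 * (4 * R * W))) ∧
      ∏ σ : K →+* ℂ, (X - C (σ p)) ∣ cx T := by
  have hint : ∀ i, ∀ n : ℤ, IsIntegral ℤ ((ω' ^ k i) ^ n) := fun i n => by
    rw [← zpow_mul]; exact mono_root hg hω _
  have hnorm : ∀ (σ : L →+* ℂ) (i), ‖σ (ω' ^ k i)‖ = 1 := fun σ i => by
    have : ‖σ ω'‖ = 1 :=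
      Complex.norm_eq_one_of_pow_eq_one (by rw [← map_pow, hω, map_one]) hg.ne'
    rw [map_zpow₀, norm_zpow, this, one_zpow]
  have hH' : (1 : ℝ) ≤ H := by exact_mod_cast hH
  obtain ⟨T, hT, hdeg, hM, hdvd⟩ := h2 L ι
    (F2 P (ω' ^ k 0) (ω' ^ k 1) (v 0) (v 1) (w 0) (w 1))
    (F2 Q (ω' ^ k 2) (ω' ^ k 3) (v 2) (v 3) (w 2) (w 3)) (4 * R * V) (4 * R * W) H
    (fun h => n1 (by
      rw [← map_zpow₀, ← map_zpow₀, ← mono_map, h, Polynomial.map_zero]))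
    (fun h => n2 (by
      rw [← map_zpow₀, ← map_zpow₀, ← mono_map, h, Polynomial.map_zero]))
    (fun j => ⟨mono_int _ _ _ _ _ _ _ (hint 0) (hint 1) j,
      mono_int _ _ _ _ _ _ _ (hint 2) (hint 3) j⟩)
    (fun j => ⟨mono_deg1 _ _ _ _ _ _ _ _
        (fun μ hμ => mono_ex_le P _ _ V R (hv 0) (hv 1) hP hμ) j,
      mono_deg1 _ _ _ _ _ _ _ _ (fun μ hμ => mono_ex_le Q _ _ V R (hv 2) (hv 3) hQ hμ) j⟩)
    (mono_deg2 _ _ _ _ _ _ _ _ fun μ hμ => mono_ex_le P _ _ W R (hw 0) (hw 1) hP hμ)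
    (mono_deg2 _ _ _ _ _ _ _ _ fun μ hμ => mono_ex_le Q _ _ W R (hw 2) (hw 3) hQ hμ) hH'
    (fun σ => by
      rw [mono_map, mono_map]
      exact ⟨(mono_l2 _ _ _ _ _ _ _ (hnorm σ 0) (hnorm σ 1)).trans (by exact_mod_cast hHP),
        (mono_l2 _ _ _ _ _ _ _ (hnorm σ 2) (hnorm σ 3)).trans (by exact_mod_cast hHQ)⟩)
    (by
      refine hfin.subset ?_
      rintro z ⟨z1, z2, z3, z4⟩
      rw [mono_map, mono_eval _ _ _ _ _ _ _ _ _ z1 z2] at z3 z4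
      simp only [map_zpow₀] at z3 z4
      exact ⟨z1, z2, (mul_eq_zero.1 z3).resolve_left (by positivity),
        (mul_eq_zero.1 z4).resolve_left (by positivity)⟩)
  obtain ⟨z1, z2, z3, z4⟩ := hz
  have hp : p ≠ 0 := fun h => z1 (by simp [h])
  have hq : q ≠ 0 := fun h => z2 (by simp [h])
  have hcomp : ∀ (S : LP) (i j : Fin 4),
      ev S (ι ω' ^ k i * ι' p ^ v i * ι' q ^ w i) (ι ω' ^ k j * ι' p ^ v j * ι' q ^ w j) = 0 →
      ((F2 S (ω' ^ k i) (ω' ^ k j) (v i) (v j) (w i) (w j)).map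
        (mapRingHom (algebraMap L K))).evalEval p q = 0 := by
    intro S i j h
    apply ι'.injective
    rw [map_zero, ← map_mapRingHom_evalEval ι', mono_map, mono_map,
      mono_eval _ _ _ _ _ _ _ _ _ z1 z2, hι, hι, map_zpow₀, map_zpow₀, h, mul_zero]
  refine ⟨T, hT, hdeg.trans (Nat.mul_le_mul_right _ hL), hM.trans ?_,
    hdvd K p q hp hq (hcomp P 0 1 z3) (hcomp Q 2 3 z4) hsep⟩
  exact pow_le_pow_right₀ hH' (Nat.mul_le_mul_right _ hL)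

theorem mono_ZS (P Q : LP) (η : Fin 4 → ℂ) (v w : Fin 4 → ℤ) (x y : ℂ) :
    (x, y) ∈ ZS P Q η v w ↔ (y, x) ∈ ZS P Q η w v := by
  unfold ZS
  simp only [Set.mem_ofPred_eq]
  rw [mul_right_comm (η 0), mul_right_comm (η 1), mul_right_comm (η 2), mul_right_comm (η 3)]
  tauto

theorem sMono (h1 : SField) (h2 : SRes) (h3 : SLV) : SMono := by
  intro P Q
  obtain ⟨R, hP, hQ⟩ : ∃ R : ℕ, Rn P ≤ R ∧ Rn Q ≤ R := ⟨_, le_max_left _ _, le_max_right _ _⟩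
  obtain ⟨H, hH, hHP, hHQ⟩ : ∃ H : ℕ, 1 ≤ H ∧ Hn P ≤ H ∧ Hn Q ≤ H :=
    ⟨1 + Hn P + Hn Q, by omega, by omega, by omega⟩
  refine ⟨32 * R ^ 2 + 16 * R * H, ?_⟩
  intro g ω p q k v w t m₁ m₂ n₁ n₂ V W U hg hω hp hq hV hW hvw hU1 hU2 hU3 hz hfin n1 n2 hne
  obtain ⟨L, _, _, ι, ω', rfl, hL, -⟩ := h1.1 g ω hg hω
  obtain ⟨K, _, _, _, ι', p', q', hι, rfl, rfl, hsep⟩ := h1.2 L ι p q hp hq
  have hω' : ω' ^ g = 1 := ι.injective (by rw [map_pow, hω.pow_eq_one, map_one])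
  have hL' : finrank ℚ L ≤ g := hL ▸ Nat.totient_le g
  obtain ⟨Tp, hTp, dp, mp, vp⟩ := mono_elim h2 P Q R H g hP hQ hH hHP hHQ hg L ι ω' hω' hL'
    k v w V W (fun i => (hvw i).1) (fun i => (hvw i).2) hfin n1 n2 K ι' p' q' hι hz hsep
  obtain ⟨Tq, hTq, -, mq, vq⟩ := mono_elim h2 P Q R H g hP hQ hH hHP hHQ hg L ι ω' hω' hL'
    k w v W V (fun i => (hvw i).2) (fun i => (hvw i).1)
    ((hfin.image Prod.swap).subset fun z hz' =>
      ⟨z.swap, (mono_ZS _ _ _ _ _ _ _).1 hz', Prod.swap_swap z⟩)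
    (mono_swap_ne _ _ _ _ _ _ _ n1) (mono_swap_ne _ _ _ _ _ _ _ n2) K ι' q' p' hι
    ((mono_ZS _ _ _ _ _ _ _).1 hz) (fun σ τ a b c => hsep σ τ a c b)
  set θ : K := algebraMap L K ω' with hθ
  have hθg : θ ^ g = 1 := by rw [hθ, ← map_pow, hω', map_one]
  have hval : ι' (∑ i : Fin 2, ![1, -θ ^ t] i * p' ^ ![m₁, m₂] i * q' ^ ![n₁, n₂] i) =
      ι' p' ^ m₁ * ι' q' ^ n₁ - ι ω' ^ t * ι' p' ^ m₂ * ι' q' ^ n₂ := by
    simp [Fin.sum_univ_two, hθ, hι, map_zpow₀, sub_eq_add_neg]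
  have hLV := h3 K ι' (Fin 2) univ ![1, -θ ^ t] ![m₁, m₂] ![n₁, n₂] p' q' (m₁ + m₂) (n₁ + n₂) 2
    Tp Tq
    (by
      intro i _
      fin_cases i
      · exact ⟨isIntegral_one, by simp, by simp⟩
      · exact ⟨(mono_root hg hθg t).neg, by simp, by simp⟩)
    (by norm_num)
    (by
      intro σ
      have : ‖σ θ‖ = 1 :=
        Complex.norm_eq_one_of_pow_eq_one (by rw [← map_pow, hθg, map_one]) hg.ne'
      simp [Fin.sum_univ_two, map_zpow₀, this]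
      norm_num)
    hTp hTq vp vq
    (fun h => hne (by rw [h, map_zero] at hval; exact sub_eq_zero.1 hval.symm))
  rw [hval] at hLV
  have hcx : cx Tp ≠ 0 := by
    unfold cx
    exact (Polynomial.map_ne_zero_iff (RingHom.injective_int _)).2 hTp
  have hK : finrank ℚ K ≤ g * (2 * (4 * R * V) * (4 * R * W)) := by
    have h := natDegree_le_of_dvd vp hcx
    rw [natDegree_prod_of_monic _ _ (fun σ _ => monic_X_sub_C _)] at h
    simp only [natDegree_X_sub_C, sum_const, card_univ, smul_eq_mul, mul_one,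
      NumberField.Embeddings.card] at h
    exact h.trans (natDegree_map_le.trans dp)
  have hHe : (H : ℝ) ≤ Real.exp H := by linarith [Real.add_one_le_exp (H : ℝ)]
  have hH0 : (0 : ℝ) ≤ H := by positivity
  have e1 : (2 : ℝ) ^ finrank ℚ K ≤ Real.exp (32 * R ^ 2 * U) := by
    have h2e : (2 : ℝ) ≤ Real.exp 1 := by linarith [Real.add_one_le_exp (1 : ℝ)]
    calc (2 : ℝ) ^ finrank ℚ K ≤ Real.exp 1 ^ finrank ℚ K := by gcongr
      _ = Real.exp (finrank ℚ K) := by rw [← Real.exp_nat_mul, mul_one]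
      _ ≤ _ := by
        refine Real.exp_le_exp.2 ?_
        calc (finrank ℚ K : ℝ) ≤ ((g * (2 * (4 * R * V) * (4 * R * W)) : ℕ) : ℝ) := by
              exact_mod_cast hK
          _ = 32 * R ^ 2 * ((g : ℝ) * V * W) := by push_cast; ring
          _ ≤ _ := by gcongr
  have e2 : ∀ (T : ℤ[X]) (Y m : ℕ) (m' : ℝ), (m : ℝ) = m' →
      (cx T).mahlerMeasure ≤ (H : ℝ) ^ (g * (2 * (4 * R * Y))) → (g : ℝ) * m' * Y ≤ U →
      (cx T).mahlerMeasure ^ m ≤ Real.exp (8 * R * H * U) := by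
    intro T Y m m' hm hM hY
    calc (cx T).mahlerMeasure ^ m ≤ (Real.exp H ^ (g * (2 * (4 * R * Y)))) ^ m :=
          pow_le_pow_left₀ (mahlerMeasure_nonneg _) (hM.trans (by gcongr)) _
      _ = Real.exp (8 * R * H * ((g : ℝ) * m' * Y)) := by
          rw [← Real.exp_nat_mul, ← Real.exp_nat_mul, ← hm]
          congr 1
          push_cast; ring
      _ ≤ _ := by gcongr
  have e3 := e2 Tp W (m₁ + m₂) _ (Nat.cast_add _ _) mp hU2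
  have e4 := e2 Tq V (n₁ + n₂) _ (Nat.cast_add _ _) mq hU3
  set d := ‖ι' p' ^ m₁ * ι' q' ^ n₁ - ι ω' ^ t * ι' p' ^ m₂ * ι' q' ^ n₂‖ with hd
  have hd0 : 0 ≤ d := norm_nonneg _
  have h5 : 1 ≤ d * Real.exp (((32 * R ^ 2 + 16 * R * H : ℕ) : ℝ) * U) := by
    calc (1 : ℝ) ≤ _ := hLV
      _ ≤ d * Real.exp (32 * R ^ 2 * U) * Real.exp (8 * R * H * U) *
          Real.exp (8 * R * H * U) := by
          have := mahlerMeasure_nonneg (cx Tp)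
          have := mahlerMeasure_nonneg (cx Tq)
          gcongr
      _ = _ := by
          rw [mul_assoc, mul_assoc, ← Real.exp_add, ← Real.exp_add]
          congr 2
          push_cast; ring
  rw [Real.exp_neg, inv_le_iff_one_le_mul₀ (Real.exp_pos _)]
  exact h5

end Pool.Agent.MP_c1891a_nt.H43
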